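import Mathlib

/-!
# Index of arboreal Galois groups in arithmetic iterated monodromy groups (MP_9fb0d9_nt)

For `f₀ = (x - 1)^2 + 1` over `ℚ` the iterates are `f₀^n = (x - 1)^(2^n) + 1`.  The splitting field
`K_n` of `f₀^n` is cyclotomic, `[K_n : ℚ] ≤ 2^n`, while the splitting field `L_n` of `f₀^n - t`
over `ℚ(t)` has degree at least `2^n · 2^(n-1)` (it contains `(t - 1)^(1/2^n)` and `ζ_{2^n}`).
-/

namespace Pool.Agent.Results.MP_9fb0d9_nt.PCFExample

open Polynomial

/-- The `n`-th iterate `f^n` of `f`. -/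
noncomputable def iter {K : Type} [Field K] (f : K[X]) (n : ℕ) : K[X] :=
  (fun g => f.comp g)^[n] X

/-- The degree over `k` of the splitting field of `p`. -/
noncomputable def splitDeg {k : Type} [Field k] (p : k[X]) : ℕ :=
  Module.finrank k p.SplittingField

/-- The variable `t` of `K(t)`, as a constant polynomial over `K(t)`. -/
noncomputable def tt (K : Type) [Field K] : (RatFunc K)[X] := C RatFunc.X

/-- `f^n(x) - t`, a polynomial over `K(t)`. -/
noncomputable def genPoly {K : Type} [Field K] (f : K[X]) (n : ℕ) : (RatFunc K)[X] :=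
  (iter f n).map RatFunc.C - tt K

/-- `[K_n : K]`, where `K_n` is the splitting field of `f^n(x)` over `K`. -/
noncomputable def arbDeg {K : Type} [Field K] (f : K[X]) (n : ℕ) : ℕ := splitDeg (iter f n)

/-- `[L_n : K(t)]`, where `L_n` is the splitting field of `f^n(x) - t` over `K(t)`. -/
noncomputable def genDeg {K : Type} [Field K] (f : K[X]) (n : ℕ) : ℕ := splitDeg (genPoly f n)

/-- `0` is periodic under `f`. -/
def ZeroPeriodic {K : Type} [Field K] (f : K[X]) : Prop :=
  ∃ m ≥ 1, (fun x : K => f.eval x)^[m] 0 = 0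

/-- `f` is postcritically finite: every critical point in an algebraic closure of `K` has a
finite forward orbit. -/
def PCF {K : Type} [Field K] (f : K[X]) : Prop :=
  ∀ c : AlgebraicClosure K, aeval c (derivative f) = 0 →
    (Set.range fun m : ℕ => (fun x : AlgebraicClosure K => aeval x f)^[m] c).Finite

/-- The problem's form of finite index of `G` in `G'`: `sup_{n ≥ 1} [L_n : K(t)] / [K_n : K] < ∞`. -/
def FiniteIndex {K : Type} [Field K] (f : K[X]) : Prop :=
  ∃ B : ℝ, ∀ n ≥ 1, (genDeg f n : ℝ) / (arbDeg f n : ℝ) ≤ B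

/-- The example `f₀(x) = (x - 1)^2 + 1 = x^2 - 2x + 2` over `ℚ`. -/
noncomputable def f₀ : ℚ[X] := (X - 1) ^ 2 + 1

theorem iter_f₀ (n : ℕ) : iter f₀ n = (X - 1) ^ (2 ^ n) + 1 := by
  unfold iter
  induction n with
  | zero => simp
  | succ k ih =>
    rw [Function.iterate_succ_apply', ih]
    simp only [f₀, add_comp, sub_comp, pow_comp, X_comp, one_comp]
    ring

theorem arb_le (n : ℕ) : arbDeg f₀ n ≤ 2 ^ n := by
  have hN : NeZero (2 ^ (n + 1)) := ⟨by positivity⟩
  have hN' : NeZero (((2 ^ (n + 1) : ℕ) : ℕ) : ℚ) := ⟨by positivity⟩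
  have hcyc : IsCyclotomicExtension {2 ^ (n + 1)} ℚ (CyclotomicField (2 ^ (n + 1)) ℚ) :=
    CyclotomicField.isCyclotomicExtension _ _
  have hs : ((iter f₀ n).map (algebraMap ℚ (CyclotomicField (2 ^ (n + 1)) ℚ))).Splits := by
    have h1 := IsCyclotomicExtension.splits_X_pow_sub_one ℚ (CyclotomicField (2 ^ (n + 1)) ℚ)
      (S := {2 ^ (n + 1)}) (n := 2 ^ (n + 1)) rfl
    have h2 := h1.comp_of_natDegree_le_one (g := X - C 1) (natDegree_X_sub_C_le _)
    refine h2.of_dvd ?_ ?_
    · simp only [Polynomial.map_sub, Polynomial.map_pow, map_X, Polynomial.map_one]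
      intro h
      have h3 := congrArg natDegree h
      rw [natDegree_comp, natDegree_X_sub_C, mul_one, ← C_1, natDegree_X_pow_sub_C,
        natDegree_zero] at h3
      exact absurd h3 (by positivity)
    · rw [iter_f₀]
      simp only [Polynomial.map_sub, Polynomial.map_pow, map_X, Polynomial.map_one,
        Polynomial.map_add, sub_comp, pow_comp, X_comp, one_comp]
      refine ⟨(X - 1) ^ (2 ^ n) - 1, ?_⟩
      rw [C_1]
      ring
  have h1 : arbDeg f₀ n ≤ Module.finrank ℚ (CyclotomicField (2 ^ (n + 1)) ℚ) :=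
    LinearMap.finrank_le_finrank_of_injective (f := (SplittingField.lift _ hs).toLinearMap)
      (SplittingField.lift _ hs).toRingHom.injective
  rw [IsCyclotomicExtension.finrank (n := 2 ^ (n + 1)) _
    (cyclotomic.irreducible_rat (by positivity)), Nat.totient_prime_pow Nat.prime_two
    (by omega)] at h1
  simpa using h1

/-! ### The lower bound for `[L_n : ℚ(t)]` -/

theorem indep_poly {F : Type} [Field F] [Algebra ℚ F] {m : ℕ} (hm : 0 < m) (ζ : F) {D : ℕ}
    (hD : LinearIndependent ℚ (fun i : Fin D => ζ ^ (i : ℕ))) (c : Fin D × Fin m → ℚ[X])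
    (h : ∑ ij, ((c ij).map (algebraMap ℚ F)).comp (X ^ m + 1) *
      (C (ζ ^ (ij.1 : ℕ)) * X ^ (ij.2 : ℕ)) = 0) : ∀ ij, c ij = 0 := by
  classical
  set P : Fin m → F[X] := fun j => ∑ i : Fin D, C (ζ ^ (i : ℕ)) * (c (i, j)).map (algebraMap ℚ F) with hP
  set Q : Fin m → F[X] := fun j => (P j).comp (X + C 1) with hQ
  have hcomp : ∀ p : F[X], p.comp (X ^ m + 1) = expand F m (p.comp (X + C 1)) := by
    intro p
    rw [expand_eq_comp_X_pow, comp_assoc]
    simp
  have hsum : ∑ j, expand F m (Q j) * X ^ (j : ℕ) = 0 := by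
    rw [← h, Fintype.sum_prod_type_right]
    refine Finset.sum_congr rfl fun j _ => ?_
    simp only [hQ, hP, ← hcomp]
    rw [← coe_compRingHom_apply, map_sum, Finset.sum_mul]
    refine Finset.sum_congr rfl fun i _ => ?_
    rw [map_mul, coe_compRingHom_apply, coe_compRingHom_apply, C_comp]
    ring
  have hQ0 : ∀ j, Q j = 0 := by
    intro j₀
    ext k
    have h1 := congrArg (fun p => coeff p (k * m + (j₀ : ℕ))) hsum
    simp only [finsetSum_coeff, coeff_zero] at h1
    rw [Finset.sum_eq_single j₀] at h1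
    · rw [coeff_mul_X_pow, coeff_expand_mul hm] at h1
      rw [h1, coeff_zero]
    · intro j _ hj
      rw [coeff_mul_X_pow']
      split_ifs with hle
      · rw [coeff_expand hm, if_neg]
        intro hdvd
        apply hj
        apply Fin.ext
        have e1 : (k * m + (j₀ : ℕ)) % m = (j : ℕ) % m := by
          have : k * m + (j₀ : ℕ) = (k * m + (j₀ : ℕ) - (j : ℕ)) + (j : ℕ) := by omega
          rw [this, Nat.add_mod, Nat.mod_eq_zero_of_dvd hdvd, zero_add, Nat.mod_mod]
        rw [Nat.add_comm, Nat.add_mul_mod_self_right, Nat.mod_eq_of_lt j₀.isLt,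
          Nat.mod_eq_of_lt j.isLt] at e1
        exact e1.symm
      · rfl
    · simp
  have hP0 : ∀ j, P j = 0 := fun j => comp_X_add_C_eq_zero_iff.mp (hQ0 j)
  rintro ⟨i, j⟩
  ext k
  have h1 := congrArg (fun p => coeff p k) (hP0 j)
  simp only [hP, finsetSum_coeff, coeff_C_mul, coeff_map, coeff_zero] at h1
  have h2 : ∑ i : Fin D, ((c (i, j)).coeff k) • (ζ ^ (i : ℕ)) = 0 := by
    rw [← h1]
    refine Finset.sum_congr rfl fun i _ => ?_
    rw [Algebra.smul_def, mul_comm]
  have h3 := Fintype.linearIndependent_iff.mp hD (fun i => (c (i, j)).coeff k) h2 i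
  simpa using h3

/-- A copy of the field `F(s)`. -/
def Om (F : Type) [Field F] : Type := RatFunc F

noncomputable instance (F : Type) [Field F] : Field (Om F) := inferInstanceAs (Field (RatFunc F))

/-- `F[s] → F(s)` -/
noncomputable def toOm (F : Type) [Field F] : F[X] →+* Om F := algebraMap F[X] (RatFunc F)

theorem toOm_inj (F : Type) [Field F] : Function.Injective (toOm F) :=
  RatFunc.algebraMap_injective F

/-- `ℚ[t] → F(s)`, `t ↦ s^m + 1` -/
noncomputable def jj (m : ℕ) (F : Type) [Field F] [Algebra ℚ F] : ℚ[X] →+* Om F :=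
  (toOm F).comp ((compRingHom (X ^ m + 1)).comp (mapRingHom (algebraMap ℚ F)))

theorem jj_apply (m : ℕ) (F : Type) [Field F] [Algebra ℚ F] (p : ℚ[X]) :
    jj m F p = toOm F ((p.map (algebraMap ℚ F)).comp (X ^ m + 1)) := rfl

theorem jj_inj {m : ℕ} (hm : 0 < m) (F : Type) [Field F] [Algebra ℚ F] :
    Function.Injective (jj m F) := by
  rw [injective_iff_map_eq_zero]
  intro p hp
  rw [jj_apply, map_eq_zero_iff _ (toOm_inj F)] at hp
  rw [comp_eq_zero_iff] at hp
  rcases hp with hp | ⟨-, hp⟩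
  · exact (Polynomial.map_eq_zero_iff (algebraMap ℚ F).injective).mp hp
  · exfalso
    have h1 := congrArg natDegree hp
    rw [natDegree_C, ← C_1, natDegree_X_pow_add_C] at h1
    omega


theorem gen_ge {n : ℕ} (hn : 1 ≤ n) : 2 ^ (n - 1) * 2 ^ n ≤ genDeg f₀ n := by
  classical
  set m : ℕ := 2 ^ n with hm
  have hm0 : 0 < m := by positivity
  have hN : NeZero m := ⟨hm0.ne'⟩
  have hN' : NeZero ((m : ℕ) : ℚ) := ⟨by positivity⟩
  have hcyc : IsCyclotomicExtension {m} ℚ (CyclotomicField m ℚ) :=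
    CyclotomicField.isCyclotomicExtension _ _
  let F := CyclotomicField m ℚ
  let ζ : F := IsCyclotomicExtension.zeta m ℚ F
  have hζ : IsPrimitiveRoot ζ m := IsCyclotomicExtension.zeta_spec m ℚ F
  have hj := jj_inj hm0 F
  let a1 : Algebra ℚ[X] (Om F) := (jj m F).toAlgebra
  let a2 : Algebra (RatFunc ℚ) (Om F) := (IsFractionRing.lift hj).toAlgebra
  have a3 : IsScalarTower ℚ[X] (RatFunc ℚ) (Om F) :=
    IsScalarTower.of_algebraMap_eq fun x => (IsFractionRing.lift_algebraMap hj x).symm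
  set s : Om F := toOm F X with hs
  set z : Om F := toOm F (C ζ) with hz
  have hzprim : IsPrimitiveRoot z m := by
    have h1 : IsPrimitiveRoot (C ζ) m := hζ.map_of_injective C_injective
    exact h1.map_of_injective (toOm_inj F)
  have ht : algebraMap (RatFunc ℚ) (Om F) RatFunc.X = s ^ m + 1 := by
    rw [← RatFunc.algebraMap_X]
    change IsFractionRing.lift hj (algebraMap ℚ[X] (RatFunc ℚ) X) = _
    rw [IsFractionRing.lift_algebraMap, jj_apply]
    simp [hs]
  set P : (RatFunc ℚ)[X] := (iter f₀ n).map RatFunc.C - C RatFunc.X with hP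
  have hPmap : P.map (algebraMap (RatFunc ℚ) (Om F)) = (X ^ m - C (s ^ m)).comp (X - C 1) := by
    rw [hP, iter_f₀]
    simp only [Polynomial.map_sub, Polynomial.map_pow, map_X, Polynomial.map_one,
      Polynomial.map_add, map_C, ht, sub_comp, pow_comp, X_comp, C_comp]
    rw [C_add, C_1]
    ring
  have hsplit : (P.map (algebraMap (RatFunc ℚ) (Om F))).Splits := by
    rw [hPmap]
    exact (X_pow_sub_C_splits_of_isPrimitiveRoot hzprim (rfl : s ^ m = s ^ m)).comp_of_natDegree_le_one
      (natDegree_X_sub_C_le _)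
  have hPne : P ≠ 0 := by
    intro h0
    have h1 : (P.map (algebraMap (RatFunc ℚ) (Om F))).natDegree = m := by
      rw [hPmap, natDegree_comp, natDegree_X_sub_C, mul_one, natDegree_X_pow_sub_C]
    rw [h0, Polynomial.map_zero, natDegree_zero] at h1
    omega
  let g : P.SplittingField →ₐ[RatFunc ℚ] Om F := SplittingField.lift P hsplit
  have hroot : ∀ x : Om F, (x - 1) ^ m = s ^ m → ∃ y : P.SplittingField, g y = x := by
    intro x hx
    have h1 : x ∈ P.rootSet (Om F) := by
      rw [mem_rootSet]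
      refine ⟨hPne, ?_⟩
      rw [← eval_map_algebraMap, hPmap]
      simp [hx]
    rw [← (SplittingField.splits P).image_rootSet g] at h1
    obtain ⟨y, -, hy⟩ := h1
    exact ⟨y, hy⟩
  obtain ⟨a, ha⟩ := hroot (1 + s) (by ring)
  obtain ⟨b, hb⟩ := hroot (1 + z * s) (by
    rw [add_sub_cancel_left, mul_pow, hzprim.pow_eq_one, one_mul])
  have hs0 : s ≠ 0 := by
    rw [hs, Ne, map_eq_zero_iff _ (toOm_inj F)]
    exact X_ne_zero
  set D := (minpoly ℚ ζ).natDegree with hD
  have hind := linearIndependent_pow (K := ℚ) ζ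
  have hDcard : D = 2 ^ (n - 1) := by
    rw [hD, ← hζ.minpoly_eq_cyclotomic_of_irreducible (cyclotomic.irreducible_rat hm0),
      natDegree_cyclotomic, hm, Nat.totient_prime_pow Nat.prime_two (by omega)]
    simp
  let w : Fin D × Fin m → P.SplittingField := fun ij =>
    ((b - 1) / (a - 1)) ^ (ij.1 : ℕ) * (a - 1) ^ (ij.2 : ℕ)
  have hgw : ∀ ij, g (w ij) = toOm F (C (ζ ^ (ij.1 : ℕ)) * X ^ (ij.2 : ℕ)) := by
    intro ij
    simp only [w, map_mul, map_pow, map_div₀, map_sub, map_one, ha, hb, add_sub_cancel_left]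
    rw [mul_div_assoc, div_self hs0, mul_one]
  have hLI : LinearIndependent (RatFunc ℚ) (fun ij => g (w ij)) := by
    rw [← LinearIndependent.iff_fractionRing (R := ℚ[X])]
    rw [Fintype.linearIndependent_iff]
    intro c hc
    apply indep_poly hm0 ζ hind c
    apply toOm_inj F
    rw [map_zero, ← hc, map_sum]
    refine Finset.sum_congr rfl fun ij _ => ?_
    rw [map_mul, hgw, Algebra.smul_def]
    rfl
  have hLI' : LinearIndependent (RatFunc ℚ) w := hLI.of_comp g.toLinearMap
  have := hLI'.fintype_card_le_finrank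
  rw [Fintype.card_prod, Fintype.card_fin, Fintype.card_fin, hDcard] at this
  exact this

/-! ### The example -/

theorem natDegree_f₀ : f₀.natDegree = 2 := by
  unfold f₀
  have h : ((X - 1) ^ 2 + 1 : ℚ[X]) = (X - C 1) ^ 2 + C 1 := by simp
  rw [h, natDegree_add_C, natDegree_pow, natDegree_X_sub_C]

theorem not_periodic : ¬ ZeroPeriodic f₀ := by
  rintro ⟨m, hm, h⟩
  have h1 : ∀ k : ℕ, (fun x : ℚ => f₀.eval x)^[k + 1] 0 = 2 := by
    intro k
    induction k with
    | zero => simp [f₀]; norm_num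
    | succ j ih =>
      rw [Function.iterate_succ_apply', ih]
      simp [f₀]; norm_num
  obtain ⟨k, rfl⟩ := Nat.exists_eq_add_of_le' hm
  rw [h1 k] at h
  norm_num at h

theorem pcf_f₀ : PCF f₀ := by
  intro c hc
  have hc1 : c = 1 := by
    have h1 : derivative f₀ = C 2 * (X - 1) := by
      simp [f₀, derivative_pow]
    rw [h1] at hc
    simp only [map_mul, aeval_C, map_sub, aeval_X, map_one, mul_eq_zero] at hc
    rcases hc with hc | hc
    · exfalso
      have h2 := (map_eq_zero (algebraMap ℚ (AlgebraicClosure ℚ))).mp hc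
      norm_num at h2
    · exact sub_eq_zero.mp hc
  refine (Set.finite_singleton (1 : AlgebraicClosure ℚ)).subset ?_
  rintro _ ⟨k, rfl⟩
  simp only [Set.mem_singleton_iff]
  induction k with
  | zero => simpa using hc1
  | succ j ih =>
    rw [Function.iterate_succ_apply', ih]
    simp [f₀]

/-- `0` is not a critical value of any iterate of `f₀`. -/
theorem not_critical_value (n : ℕ) (c : AlgebraicClosure ℚ)
    (hc : aeval c (derivative (iter f₀ n)) = 0) : aeval c (iter f₀ n) ≠ 0 := by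
  rw [iter_f₀] at hc ⊢
  intro h0
  simp only [map_add, map_pow, map_sub, aeval_X, map_one] at h0
  have h1 : derivative ((X - 1) ^ (2 ^ n) + 1 : ℚ[X]) =
      C ((2 ^ n : ℕ) : ℚ) * (X - 1) ^ (2 ^ n - 1) := by
    simp [derivative_pow]
  rw [h1] at hc
  simp only [map_mul, aeval_C, map_pow, map_sub, aeval_X, map_one, mul_eq_zero] at hc
  rcases hc with hc | hc
  · have h2 := (map_eq_zero (algebraMap ℚ (AlgebraicClosure ℚ))).mp hc
    exact absurd h2 (by positivity)
  · have h2 : (c - 1) ^ (2 ^ n) = 0 := by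
      have h3 : 2 ^ n = (2 ^ n - 1) + 1 := by
        have := Nat.pos_of_ne_zero (pow_ne_zero n (two_ne_zero (α := ℕ)))
        omega
      rw [h3, pow_succ, hc, zero_mul]
    rw [h2, zero_add] at h0
    exact one_ne_zero h0

theorem not_finiteIndex : ¬ FiniteIndex f₀ := by
  rintro ⟨B, hB⟩
  obtain ⟨n, hn⟩ := exists_nat_gt B
  have h1 := hB (n + 1) (by omega)
  have h2 := gen_ge (n := n + 1) (by omega)
  have h3 := arb_le (n + 1)
  have hpos : 0 < arbDeg f₀ (n + 1) := by
    unfold arbDeg splitDeg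
    exact Module.finrank_pos
  have hposR : (0 : ℝ) < (arbDeg f₀ (n + 1) : ℝ) := by exact_mod_cast hpos
  rw [div_le_iff₀ hposR] at h1
  have h2' : (2 : ℝ) ^ n * 2 ^ (n + 1) ≤ (genDeg f₀ (n + 1) : ℝ) := by
    rw [Nat.add_sub_cancel] at h2
    exact_mod_cast h2
  have h3' : (arbDeg f₀ (n + 1) : ℝ) ≤ 2 ^ (n + 1) := by exact_mod_cast h3
  have h4 : (n : ℝ) < 2 ^ n := by exact_mod_cast Nat.lt_two_pow_self
  have hp : (0 : ℝ) < 2 ^ (n + 1) := by positivity
  have hB0 : 0 < B := by
    by_contra hneg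
    push Not at hneg
    have : B * (arbDeg f₀ (n + 1) : ℝ) ≤ 0 := mul_nonpos_of_nonpos_of_nonneg hneg hposR.le
    have h5 : (0 : ℝ) < 2 ^ n * 2 ^ (n + 1) := by positivity
    linarith
  have h6 : B * (arbDeg f₀ (n + 1) : ℝ) ≤ B * 2 ^ (n + 1) :=
    mul_le_mul_of_nonneg_left h3' hB0.le
  have h7 : (2 : ℝ) ^ n * 2 ^ (n + 1) ≤ B * 2 ^ (n + 1) := by linarith
  have h8 : (2 : ℝ) ^ n ≤ B := le_of_mul_le_mul_right h7 hp
  linarith

/-- `0` is not a critical value of any iterate of `f`. -/
def ZeroNotCriticalValue {K : Type} [Field K] (f : K[X]) : Prop :=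
  ∀ (n : ℕ) (c : AlgebraicClosure K),
    aeval c (derivative (iter f n)) = 0 → aeval c (iter f n) ≠ 0

/-- `f` has degree at least `2`, `0` is not periodic, `G` has infinite index in `G'`. -/
def InfiniteIndexExample {K : Type} [Field K] (f : K[X]) : Prop :=
  2 ≤ f.natDegree ∧ ¬ ZeroPeriodic f ∧ ¬ FiniteIndex f

/-- Q1 and Q2: there are a number field `K` and a (postcritically finite) `f ∈ K[x]` of degree
at least `2`, with `0` not periodic, such that `G` does not have finite index in `G'`.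
An example is `K = ℚ`, `f = x^2 - 2x + 2`. -/
theorem result :
    (∃ (K : Type) (_ : Field K) (_ : NumberField K) (f : K[X]), InfiniteIndexExample f) ∧
    (∃ (K : Type) (_ : Field K) (_ : NumberField K) (f : K[X]),
      PCF f ∧ InfiniteIndexExample f) ∧
    (f₀.natDegree = 2 ∧ PCF f₀ ∧ InfiniteIndexExample f₀ ∧ ZeroNotCriticalValue f₀) ∧
    ∀ n ≥ 1, arbDeg f₀ n ≤ 2 ^ n ∧ 2 ^ (n - 1) * 2 ^ n ≤ genDeg f₀ n :=
  have h : InfiniteIndexExample f₀ := ⟨natDegree_f₀.ge, not_periodic, not_finiteIndex⟩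
  ⟨⟨ℚ, inferInstance, inferInstance, f₀, h⟩, ⟨ℚ, inferInstance, inferInstance, f₀, pcf_f₀, h⟩,
    ⟨natDegree_f₀, pcf_f₀, h, not_critical_value⟩, fun n hn => ⟨arb_le n, gen_ge hn⟩⟩

end Pool.Agent.Results.MP_9fb0d9_nt.PCFExample
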